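import Pool.Agent.helper58.FI4E.Spec

/-!
# Project FI4E (MP_baa4d7_al), row OMR

`Om` does not change if `α` is multiplied by an inner automorphism, and it is zero if the block is
not stable.
-/

set_option autoImplicit false

namespace Pool.Agent.FI4E

open Pool.Agent.helper58.DC Pool.Agent.DI Pool.Agent.GR Pool.Agent.OB Pool.Agent.DR Pool.Agent.FI
  Pool.Agent.FI3 Pool.Agent.FI4 Pool.Agent.FI4I

theorem OMR (hUNS : UNS_stmt) (hBAA : BAA_stmt) : OMR_stmt := by
  intro p M hM G _ _ χ R α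
  refine ⟨fun g => ?_, fun hχ hs => ?_⟩
  · unfold Om
    rw [← finsum_comp_equiv (Equiv.mulRight g) (f := fun g' : G =>
      ∑ᶠ C ∈ {C : Finset (Subgroup G) | NCh p ⊤ R C ∧ FxC (al α g') C},
        (-1 : ℂ) ^ (C.card + 1) * tL p M χ (nrm C) (al α g'))]
    refine finsum_congr fun h => ?_
    rw [al_al]
    rfl
  · unfold Om
    apply finsum_eq_zero_of_forall_eq_zero
    intro g
    apply finsum_mem_of_eqOn_zero
    intro C hC
    change (-1 : ℂ) ^ (C.card + 1) * tL p M χ (nrm C) (al α g) = 0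
    have h1 := hBAA G M p α ⊤ ⊤ ⊤ χ χ χ
    have h2 := hBAA G M p (al α g) ⊤ ⊤ ⊤ χ χ χ
    have h3 : am (al α g) (nrm C) = nrm C := h2.2.2.2.2.2.2.2.1 C hC.2
    have h4 : ¬ Stb M χ (al α g) := fun h => hs ((h1.2.2.2.2.2.2.2.2.2.2 g hχ).2.1 h)
    rw [(hUNS p M hM G (al α g) (nrm C) h3).2 χ h4, mul_zero]

end Pool.Agent.FI4E
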